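import Pool.Agent.H590R3.AbStmts

/-!
# Task H590-AB Dec1: second order decay of the cosine coefficients of thin bumps
-/

set_option autoImplicit false

namespace Pool.Agent.H343R3.Ab

open MeasureTheory intervalIntegral Real

open Pool.H590R3.Ab

/-- two integrations by parts on `[0, π]` -/
theorem ibp2 (F F' F'' : ℝ → ℝ) (h1 : ∀ x, HasDerivAt F (F' x) x)
    (h2 : ∀ x, HasDerivAt F' (F'' x) x) (hc : Continuous F'') (h0 : F' 0 = 0) (hπ : F' π = 0)
    (k : ℤ) (hk : k ≠ 0) :
    ∫ θ in (0:ℝ)..π, F θ * cos (k * θ) = ∫ θ in (0:ℝ)..π, F'' θ * (-(cos (k * θ) / (k:ℝ) ^ 2)) := by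
  have hk' : (k : ℝ) ≠ 0 := by exact_mod_cast hk
  have hF' : Continuous F' := continuous_iff_continuousAt.2 fun x => (h2 x).continuousAt
  have hlin : ∀ x : ℝ, HasDerivAt (fun θ : ℝ => (k : ℝ) * θ) (k : ℝ) x := fun x => by
    simpa using (hasDerivAt_id x).const_mul (k : ℝ)
  have d1 : ∀ x : ℝ, HasDerivAt (fun θ : ℝ => sin (k * θ) / (k : ℝ)) (cos (k * x)) x := fun x => by
    have := ((hasDerivAt_sin ((k : ℝ) * x)).comp x (hlin x)).div_const (k : ℝ)
    refine this.congr_deriv ?_
    field_simp
  have d2 : ∀ x : ℝ, HasDerivAt (fun θ : ℝ => -(cos (k * θ) / (k : ℝ) ^ 2))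
      (sin (k * x) / (k : ℝ)) x := fun x => by
    have := (((hasDerivAt_cos ((k : ℝ) * x)).comp x (hlin x)).div_const ((k : ℝ) ^ 2)).neg
    refine this.congr_deriv ?_
    field_simp
  have s1 := integral_mul_deriv_eq_deriv_mul (a := 0) (b := π) (u := F)
    (v := fun θ => sin (k * θ) / (k : ℝ)) (u' := F') (v' := fun θ => cos (k * θ))
    (fun x _ => h1 x) (fun x _ => d1 x) (hF'.intervalIntegrable _ _)
    ((by fun_prop : Continuous fun θ : ℝ => cos (k * θ)).intervalIntegrable _ _)
  have s2 := integral_mul_deriv_eq_deriv_mul (a := 0) (b := π) (u := F')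
    (v := fun θ => -(cos (k * θ) / (k : ℝ) ^ 2)) (u' := F'') (v' := fun θ => sin (k * θ) / (k : ℝ))
    (fun x _ => h2 x) (fun x _ => d2 x) (hc.intervalIntegrable _ _)
    ((by fun_prop : Continuous fun θ : ℝ => sin (k * θ) / (k : ℝ)).intervalIntegrable _ _)
  rw [s1, s2, h0, hπ]
  have e1 : sin ((k : ℝ) * π) = 0 := Real.sin_int_mul_pi k
  simp [e1]

theorem dec1 : Dec1_stmt := by
  intro G hG hs
  have hd0 : Differentiable ℝ G := hG.differentiable (by norm_num)
  have hG' : ContDiff ℝ 1 (deriv G) := by
    have := ContDiff.iterate_deriv' 1 1 (f := G) (by exact_mod_cast hG)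
    simpa using this
  have hd1 : Differentiable ℝ (deriv G) := hG'.differentiable (by norm_num)
  have hc2 : Continuous (deriv (deriv G)) := hG'.continuous_deriv (by norm_num)
  have hc1 : Continuous (deriv G) := hG'.continuous
  have hcs : HasCompactSupport G := HasCompactSupport.intro (isCompact_Icc (a := (-1 : ℝ)) (b := 1))
    (fun x hx => hs x (by
      by_contra h
      push Not at h
      exact hx ⟨(abs_lt.1 h).1.le, (abs_lt.1 h).2.le⟩))
  obtain ⟨M, hM⟩ := hcs.deriv.exists_bound_of_continuous hc1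
  have hM' : ∀ x, |deriv G x| ≤ M := fun x => by simpa using hM x
  have hM0 : 0 ≤ M := (abs_nonneg _).trans (hM' 0)
  have hint : Integrable (fun x => |deriv (deriv G) x|) :=
    (hc2.integrable_of_hasCompactSupport hcs.deriv.deriv).abs
  set I : ℝ := ∫ x, |deriv (deriv G) x| with hI
  refine ⟨(1 / π) * (M * π + I), fun δ hδ _ c k hk => ?_⟩
  have hk' : (k : ℝ) ≠ 0 := by exact_mod_cast hk
  have hk2 : (0 : ℝ) < (k : ℝ) ^ 2 := by positivity
  set f : ℝ → ℝ := fun θ => (cos θ - c) / δ with hf
  have hfd : ∀ x, HasDerivAt f (-(sin x) / δ) x := fun x =>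
    ((hasDerivAt_cos x).sub_const c).div_const δ
  have hfc : Continuous f := by
    rw [hf]
    fun_prop
  have h1 : ∀ x, HasDerivAt (fun θ => δ * G (f θ)) (-(sin x) * deriv G (f x)) x := fun x => by
    have := (((hd0 (f x)).hasDerivAt).comp x (hfd x)).const_mul δ
    refine this.congr_deriv ?_
    field_simp
  have h2 : ∀ x, HasDerivAt (fun θ => -(sin θ) * deriv G (f θ))
      (-(cos x) * deriv G (f x) + -(sin x) * (deriv (deriv G) (f x) * (-(sin x) / δ))) x :=
    fun x => by
      have e1 : HasDerivAt (fun θ => -(sin θ)) (-(cos x)) x := (hasDerivAt_sin x).neg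
      have e2 : HasDerivAt (fun θ => deriv G (f θ)) (deriv (deriv G) (f x) * (-(sin x) / δ)) x :=
        ((hd1 (f x)).hasDerivAt).comp x (hfd x)
      exact e1.mul e2
  have hc : Continuous (fun x => -(cos x) * deriv G (f x) +
      -(sin x) * (deriv (deriv G) (f x) * (-(sin x) / δ))) := by
    have a1 : Continuous (fun x => deriv G (f x)) := hc1.comp hfc
    have a2 : Continuous (fun x => deriv (deriv G) (f x)) := hc2.comp hfc
    fun_prop
  have key := ibp2 _ _ _ h1 h2 hc (by simp) (by simp) k hk
  -- the substitution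
  have hsub : ∫ θ in (0:ℝ)..π, |deriv (deriv G) (f θ)| * (sin θ / δ) ≤ I := by
    have e := integral_comp_mul_deriv (a := 0) (b := π) (f := f) (f' := fun x => -(sin x) / δ)
      (g := fun x => |deriv (deriv G) x|) (fun x _ => hfd x)
      (by fun_prop) hc2.abs
    have e' : ∫ θ in (0:ℝ)..π, |deriv (deriv G) (f θ)| * (sin θ / δ) =
        ∫ x in (f π)..(f 0), |deriv (deriv G) x| := by
      rw [integral_symm (f 0) (f π), ← e, ← intervalIntegral.integral_neg]
      refine intervalIntegral.integral_congr fun x _ => ?_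
      simp only [Function.comp]
      ring
    rw [e']
    have hle : f π ≤ f 0 := by
      simp only [hf, cos_pi, cos_zero]
      gcongr
      norm_num
    rw [intervalIntegral.integral_of_le hle]
    exact setIntegral_le_integral hint (Filter.Eventually.of_forall fun x => abs_nonneg _)
  have hbound : |∫ θ in (0:ℝ)..π, (δ * G (f θ)) * cos (k * θ)| ≤ (M * π + I) / (k : ℝ) ^ 2 := by
    rw [key]
    have hgint : Continuous (fun θ => (M + |deriv (deriv G) (f θ)| * (sin θ / δ)) / (k:ℝ) ^ 2) := by
      have a2 : Continuous (fun x => |deriv (deriv G) (f x)|) := (hc2.comp hfc).abs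
      fun_prop
    have b1 := intervalIntegral.norm_integral_le_of_norm_le (μ := volume) (a := 0) (b := π)
      (f := fun θ => (-(cos θ) * deriv G (f θ) +
        -(sin θ) * (deriv (deriv G) (f θ) * (-(sin θ) / δ))) * (-(cos (k * θ) / (k:ℝ) ^ 2)))
      (g := fun θ => (M + |deriv (deriv G) (f θ)| * (sin θ / δ)) / (k:ℝ) ^ 2) pi_pos.le
      (Filter.Eventually.of_forall fun θ hθ => by
        have hs0 : 0 ≤ sin θ := sin_nonneg_of_nonneg_of_le_pi hθ.1.le hθ.2
        have hs1 : sin θ ≤ 1 := sin_le_one θ
        rw [Real.norm_eq_abs, abs_mul, abs_neg, abs_div, abs_of_pos hk2, ← mul_div_assoc]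
        refine div_le_div_of_nonneg_right ?_ hk2.le
        have c1 : |cos (k * θ)| ≤ 1 := abs_cos_le_one _
        have c2 : |-(cos θ) * deriv G (f θ) +
            -(sin θ) * (deriv (deriv G) (f θ) * (-(sin θ) / δ))| ≤
            M + |deriv (deriv G) (f θ)| * (sin θ / δ) := by
          refine (abs_add_le _ _).trans (add_le_add ?_ ?_)
          · rw [abs_mul, abs_neg]
            calc |cos θ| * |deriv G (f θ)| ≤ 1 * M :=
                  mul_le_mul (abs_cos_le_one _) (hM' _) (abs_nonneg _) zero_le_one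
              _ = M := one_mul _
          · rw [abs_mul, abs_mul, abs_div, abs_neg, abs_of_nonneg hs0, abs_of_pos hδ]
            have : 0 ≤ |deriv (deriv G) (f θ)| * (sin θ / δ) := by positivity
            calc sin θ * (|deriv (deriv G) (f θ)| * (sin θ / δ)) ≤
                  1 * (|deriv (deriv G) (f θ)| * (sin θ / δ)) :=
                  mul_le_mul_of_nonneg_right hs1 this
              _ = _ := one_mul _
        calc _ ≤ (M + |deriv (deriv G) (f θ)| * (sin θ / δ)) * 1 :=
              mul_le_mul c2 c1 (abs_nonneg _) ((abs_nonneg _).trans c2)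
          _ = _ := mul_one _)
      (hgint.intervalIntegrable _ _)
    rw [Real.norm_eq_abs] at b1
    refine b1.trans ?_
    rw [intervalIntegral.integral_div]
    refine div_le_div_of_nonneg_right ?_ hk2.le
    have a2 : Continuous (fun x => |deriv (deriv G) (f x)| * (sin x / δ)) := by
      have a3 : Continuous (fun x => |deriv (deriv G) (f x)|) := (hc2.comp hfc).abs
      fun_prop
    rw [intervalIntegral.integral_add (continuous_const.intervalIntegrable _ _)
      (a2.intervalIntegrable _ _), intervalIntegral.integral_const]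
    have : (π - 0) • M = M * π := by
      rw [smul_eq_mul]
      ring
    rw [this]
    linarith
  unfold ca
  rw [abs_mul, abs_of_pos (by positivity : (0 : ℝ) < 1 / π), mul_div_assoc]
  exact mul_le_mul_of_nonneg_left hbound (by positivity)

end Pool.Agent.H343R3.Ab
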